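import Pool.Agent.Y996.TL.Stm

/-! Job TL-C1113: trilinearity, bound and convergence of `pair5`. -/

set_option autoImplicit false

namespace Pool.Agent.Y960.TL

open Pool.Agent.H988R2.Perc Filter Topology MeasureTheory Relation
open Pool.Agent.Y996.TL

namespace C11

theorem add1 (a b : ℕ) (f f' g h : St →₀ ℂ) :
    pair5 a b (f + f') g h = pair5 a b f g h + pair5 a b f' g h := by
  classical
  unfold pair5
  refine Finsupp.sum_add_index' (fun R => by simp) (fun R x y => ?_)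
  rw [← Finsupp.sum_add]
  refine Finsupp.sum_congr fun R1 _ => ?_
  rw [← Finsupp.sum_add]
  refine Finsupp.sum_congr fun R2 _ => ?_
  ring

theorem add2 (a b : ℕ) (f g g' h : St →₀ ℂ) :
    pair5 a b f (g + g') h = pair5 a b f g h + pair5 a b f g' h := by
  classical
  unfold pair5
  rw [← Finsupp.sum_add]
  refine Finsupp.sum_congr fun R _ => ?_
  refine Finsupp.sum_add_index' (fun R => by simp) (fun R x y => ?_)
  rw [← Finsupp.sum_add]
  refine Finsupp.sum_congr fun R2 _ => ?_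
  ring

theorem add3 (a b : ℕ) (f g h h' : St →₀ ℂ) :
    pair5 a b f g (h + h') = pair5 a b f g h + pair5 a b f g h' := by
  classical
  unfold pair5
  rw [← Finsupp.sum_add]
  refine Finsupp.sum_congr fun R _ => ?_
  rw [← Finsupp.sum_add]
  refine Finsupp.sum_congr fun R1 _ => ?_
  refine Finsupp.sum_add_index' (fun R => by simp) (fun R x y => ?_)
  ring

theorem smul1 (a b : ℕ) (c : ℂ) (f g h : St →₀ ℂ) :
    pair5 a b (c • f) g h = c * pair5 a b f g h := by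
  classical
  unfold pair5
  rw [Finsupp.sum_smul_index' (fun R => by simp), Finsupp.mul_sum]
  refine Finsupp.sum_congr fun R _ => ?_
  rw [Finsupp.mul_sum]
  refine Finsupp.sum_congr fun R1 _ => ?_
  rw [Finsupp.mul_sum]
  refine Finsupp.sum_congr fun R2 _ => ?_
  simp only [smul_eq_mul]
  ring

theorem smul2 (a b : ℕ) (c : ℂ) (f g h : St →₀ ℂ) :
    pair5 a b f (c • g) h = c * pair5 a b f g h := by
  classical
  unfold pair5
  rw [Finsupp.mul_sum]
  refine Finsupp.sum_congr fun R _ => ?_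
  rw [Finsupp.sum_smul_index' (fun R => by simp), Finsupp.mul_sum]
  refine Finsupp.sum_congr fun R1 _ => ?_
  rw [Finsupp.mul_sum]
  refine Finsupp.sum_congr fun R2 _ => ?_
  simp only [smul_eq_mul]
  ring

theorem smul3 (a b : ℕ) (c : ℂ) (f g h : St →₀ ℂ) :
    pair5 a b f g (c • h) = c * pair5 a b f g h := by
  classical
  unfold pair5
  rw [Finsupp.mul_sum]
  refine Finsupp.sum_congr fun R _ => ?_
  rw [Finsupp.mul_sum]
  refine Finsupp.sum_congr fun R1 _ => ?_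
  rw [Finsupp.sum_smul_index' (fun R => by simp), Finsupp.mul_sum]
  refine Finsupp.sum_congr fun R2 _ => ?_
  simp only [smul_eq_mul]
  ring

theorem bound (a b : ℕ) (f g h : St →₀ ℂ) :
    ‖pair5 a b f g h‖ ≤ T24.nrm f * T24.nrm g * T24.nrm h := by
  classical
  unfold pair5 T24.nrm
  rw [mul_assoc, Finsupp.sum, Finsupp.sum, Finset.sum_mul]
  refine (norm_sum_le _ _).trans (Finset.sum_le_sum fun R _ => ?_)
  rw [Finsupp.sum, Finsupp.sum, Finset.sum_mul, Finset.mul_sum]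
  refine (norm_sum_le _ _).trans (Finset.sum_le_sum fun R1 _ => ?_)
  rw [Finsupp.sum, Finsupp.sum, Finset.mul_sum, Finset.mul_sum]
  refine (norm_sum_le _ _).trans (Finset.sum_le_sum fun R2 _ => ?_)
  rw [norm_mul, norm_mul, norm_mul]
  have : ‖(if connT a b R R1 R2 ∧ ¬ connB a b R R1 R2 then (1:ℂ) else 0)‖ ≤ 1 := by
    split_ifs <;> simp
  calc ‖f R‖ * ‖g R1‖ * ‖h R2‖ * ‖(if connT a b R R1 R2 ∧ ¬ connB a b R R1 R2 then (1:ℂ) else 0)‖
      ≤ ‖f R‖ * ‖g R1‖ * ‖h R2‖ * 1 :=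
        mul_le_mul_of_nonneg_left this (by positivity)
    _ = ‖f R‖ * (‖g R1‖ * ‖h R2‖) := by ring

end C11

theorem c11 : S_C11 :=
  ⟨C11.add1, C11.add2, C11.add3, C11.smul1, C11.smul2, C11.smul3, C11.bound⟩

theorem c13 (h : S_C11) : S_C13 := by
  obtain ⟨a0, a1, a2, m0, m1, m2, hb⟩ := h
  intro a b f0 f1 f2 w0 w1 w2 h0 h1 h2
  rw [tendsto_iff_norm_sub_tendsto_zero]
  have hF : Tendsto (fun M => T24.nrm (f0 M + (-1 : ℂ) • w0) *
      (T24.nrm (f1 M + (-1 : ℂ) • w1) + T24.nrm w1) * (T24.nrm (f2 M + (-1 : ℂ) • w2) + T24.nrm w2)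
      + T24.nrm w0 * T24.nrm (f1 M + (-1 : ℂ) • w1) * (T24.nrm (f2 M + (-1 : ℂ) • w2) + T24.nrm w2)
      + T24.nrm w0 * T24.nrm w1 * T24.nrm (f2 M + (-1 : ℂ) • w2)) atTop
      (𝓝 (0 * (0 + T24.nrm w1) * (0 + T24.nrm w2) + T24.nrm w0 * 0 * (0 + T24.nrm w2)
        + T24.nrm w0 * T24.nrm w1 * 0)) :=
    (((h0.mul (h1.add_const _)).mul (h2.add_const _)).add
      ((h1.const_mul _).mul (h2.add_const _))).add (h2.const_mul _)
  have hz : (0 * (0 + T24.nrm w1) * (0 + T24.nrm w2) + T24.nrm w0 * 0 * (0 + T24.nrm w2)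
        + T24.nrm w0 * T24.nrm w1 * 0) = 0 := by ring
  rw [hz] at hF
  refine squeeze_zero (fun _ => norm_nonneg _) (fun M => ?_) hF
  set d0 := f0 M + (-1 : ℂ) • w0 with hd0
  set d1 := f1 M + (-1 : ℂ) • w1 with hd1
  set d2 := f2 M + (-1 : ℂ) • w2 with hd2
  have e0 : f0 M = d0 + w0 := by rw [hd0]; simp
  have e1 : f1 M = d1 + w1 := by rw [hd1]; simp
  have e2 : f2 M = d2 + w2 := by rw [hd2]; simp
  have e : pair5 a b (f0 M) (f1 M) (f2 M) - pair5 a b w0 w1 w2 =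
      pair5 a b d0 (f1 M) (f2 M) + pair5 a b w0 d1 (f2 M) + pair5 a b w0 w1 d2 := by
    rw [e0, a0, e1, a1 a b w0, e2, a2 a b w0 w1]
    ring
  rw [e]
  have n1 := hb a b d0 (f1 M) (f2 M)
  have n2 := hb a b w0 d1 (f2 M)
  have n3 := hb a b w0 w1 d2
  have k1 : T24.nrm (f1 M) ≤ T24.nrm d1 + T24.nrm w1 := by rw [e1]; exact T24.nrm_add_le _ _
  have k2 : T24.nrm (f2 M) ≤ T24.nrm d2 + T24.nrm w2 := by rw [e2]; exact T24.nrm_add_le _ _
  have p0 := T24.nrm_nonneg d0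
  have p1 := T24.nrm_nonneg d1
  have p2 := T24.nrm_nonneg d2
  have q0 := T24.nrm_nonneg w0
  have q1 := T24.nrm_nonneg w1
  have q2 := T24.nrm_nonneg w2
  have r1 := T24.nrm_nonneg (f1 M)
  have r2 := T24.nrm_nonneg (f2 M)
  have s1 : T24.nrm d0 * T24.nrm (f1 M) * T24.nrm (f2 M) ≤
      T24.nrm d0 * (T24.nrm d1 + T24.nrm w1) * (T24.nrm d2 + T24.nrm w2) :=
    mul_le_mul (mul_le_mul_of_nonneg_left k1 p0) k2 r2 (by positivity)
  have s2 : T24.nrm w0 * T24.nrm d1 * T24.nrm (f2 M) ≤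
      T24.nrm w0 * T24.nrm d1 * (T24.nrm d2 + T24.nrm w2) :=
    mul_le_mul_of_nonneg_left k2 (by positivity)
  calc ‖pair5 a b d0 (f1 M) (f2 M) + pair5 a b w0 d1 (f2 M) + pair5 a b w0 w1 d2‖
      ≤ ‖pair5 a b d0 (f1 M) (f2 M)‖ + ‖pair5 a b w0 d1 (f2 M)‖ + ‖pair5 a b w0 w1 d2‖ :=
        norm_add₃_le
    _ ≤ _ := by linarith

end Pool.Agent.Y960.TL
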