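import Pool.Agent.Y996.TL.Stm
import Pool.Agent.H980R3.Slit.C14
import Pool.Agent.H980R3.Slit.C12

/-! Job TL-C14: the probability of the event in terms of the stationary vectors. -/

set_option autoImplicit false

namespace Pool.Agent.Y960.TL

open Pool.Agent.H988R2.Perc hiding X
open Pool.Agent.Y996.TL
open Pool.Agent.H980R3.Slit (psi1)
open Filter Topology MeasureTheory Relation

namespace C14

variable {a b : ℕ}

theorem WT_mono (h4 : S_C4) (h5 : S_C5) (h7m : S_C7m) (ha : Odd a) (hb : Odd b) :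
    Monotone (WT a b) := by
  intro M M' hM ω h
  exact (h5 a b M' ω ha hb).1 (h7m a b M M' ω _ _ hM ((h4 a b M ω ha hb).1 h))

theorem WB_mono (h4 : S_C4) (h5 : S_C5) (h7m : S_C7m) (ha : Odd a) (hb : Odd b) :
    Monotone (WB a b) := by
  intro M M' hM ω h
  exact (h5 a b M' ω ha hb).2 (h7m a b M M' ω _ _ hM ((h4 a b M ω ha hb).2 h))

theorem iUnion_WB (h4 : S_C4) (h5 : S_C5) (h6 : S_C6) (h7 : S_C7) (ha : Odd a) (hb : Odd b) :
    ⋃ M, WB a b M = BankR a b := by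
  ext ω
  rw [Set.mem_iUnion]
  constructor
  · rintro ⟨M, h⟩
    exact (h6 a b M ω ha hb).2 ((h4 a b M ω ha hb).2 h)
  · intro h
    obtain ⟨M, hM⟩ := (h7 a b ω ha hb).2 h
    exact ⟨M, (h5 a b M ω ha hb).2 hM⟩

theorem iUnion_WTB (h4 : S_C4) (h5 : S_C5) (h6 : S_C6) (h7 : S_C7) (ha : Odd a) (hb : Odd b) :
    ⋃ M, (WT a b M ∪ WB a b M) = TipR a b ∪ BankR a b := by
  ext ω
  rw [Set.mem_iUnion]
  constructor
  · rintro ⟨M, h | h⟩
    · exact (h6 a b M ω ha hb).1 ((h4 a b M ω ha hb).1 h)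
    · exact Or.inr ((h6 a b M ω ha hb).2 ((h4 a b M ω ha hb).2 h))
  · rintro (h | h)
    · obtain ⟨M, hM⟩ := (h7 a b ω ha hb).1 h
      exact ⟨M, Or.inl ((h5 a b M ω ha hb).1 hM)⟩
    · obtain ⟨M, hM⟩ := (h7 a b ω ha hb).2 h
      exact ⟨M, Or.inr ((h5 a b M ω ha hb).2 hM)⟩

end C14

theorem c14 (h4 : S_C4) (h5 : S_C5) (h6 : S_C6) (h7 : S_C7) (h7m : S_C7m) (h10 : S_C10)
    (h11 : S_C11) (h13 : S_C13) : S_C14 := by
  intro a b ha hb
  have hL : Odd (a + b + 3) := (ha.add_odd hb).add_odd (by decide)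
  have hmB : ∀ M, MeasurableSet (WB a b M) := fun M => (h10 a b M ha hb).2.1
  have hmBR : MeasurableSet (BankR a b) := by
    rw [← C14.iUnion_WB h4 h5 h6 h7 ha hb]
    exact MeasurableSet.iUnion hmB
  have e1 : Tendsto (fun M => perc.real (WB a b M)) atTop (𝓝 (perc.real (BankR a b))) := by
    have h1 : Tendsto (fun M => perc (WB a b M)) atTop (𝓝 (perc (⋃ M, WB a b M))) :=
      tendsto_measure_iUnion_atTop (C14.WB_mono h4 h5 h7m ha hb)
    rw [C14.iUnion_WB h4 h5 h6 h7 ha hb] at h1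
    exact (ENNReal.tendsto_toReal (measure_ne_top perc (BankR a b))).comp h1
  have e1' : Tendsto (fun M => perc.real (WT a b M ∪ WB a b M)) atTop
      (𝓝 (perc.real (TipR a b ∪ BankR a b))) := by
    have h1 : Tendsto (fun M => perc (WT a b M ∪ WB a b M)) atTop
        (𝓝 (perc (⋃ M, (WT a b M ∪ WB a b M)))) :=
      tendsto_measure_iUnion_atTop fun M M' hM =>
        Set.union_subset_union (C14.WT_mono h4 h5 h7m ha hb hM) (C14.WB_mono h4 h5 h7m ha hb hM)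
    rw [C14.iUnion_WTB h4 h5 h6 h7 ha hb] at h1
    exact (ENNReal.tendsto_toReal (measure_ne_top perc (TipR a b ∪ BankR a b))).comp h1
  have hdiff : ∀ (S B : Set Conf), MeasurableSet B →
      perc.real (S \ B) = perc.real (S ∪ B) - perc.real B := by
    intro S B hB
    exact measureReal_sdiff' hB
  have e2 : Tendsto (fun M => perc.real (WT a b M \ WB a b M)) atTop
      (𝓝 (perc.real (Legs a b))) := by
    have h1 := e1'.sub e1
    rw [← hdiff _ _ hmBR] at h1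
    refine h1.congr fun M => ?_
    rw [hdiff _ _ (hmB M)]
  have e2' : Tendsto (fun M => ((perc.real (WT a b M \ WB a b M) : ℝ) : ℂ)) atTop
      (𝓝 ((perc.real (Legs a b) : ℝ) : ℂ)) :=
    (Complex.continuous_ofReal.tendsto _).comp e2
  have l0 := Pool.Agent.H980R3.Slit.psi1_law Pool.Agent.H980R3.Slit.t_C12 (a+b+3) hL
  have l1 := Pool.Agent.H980R3.Slit.psi1_law Pool.Agent.H980R3.Slit.t_C12 a ha
  have l2 := Pool.Agent.H980R3.Slit.psi1_law Pool.Agent.H980R3.Slit.t_C12 b hb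
  have e3 := h13 a b (law (a+b+3)) (law a) (law b) ((mass (psi1 (a+b+3)))⁻¹ • psi1 (a+b+3))
    ((mass (psi1 a))⁻¹ • psi1 a) ((mass (psi1 b))⁻¹ • psi1 b) l0 l1 l2
  have e4 : Tendsto (fun M => ((perc.real (WT a b M \ WB a b M) : ℝ) : ℂ)) atTop
      (𝓝 (pair5 a b ((mass (psi1 (a+b+3)))⁻¹ • psi1 (a+b+3)) ((mass (psi1 a))⁻¹ • psi1 a)
        ((mass (psi1 b))⁻¹ • psi1 b))) := by
    refine e3.congr fun M => ?_
    rw [(h10 a b M ha hb).2.2]
  have e5 := tendsto_nhds_unique e2' e4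
  obtain ⟨_, _, _, s1, s2, s3, _⟩ := h11
  rw [e5, s1, s2, s3]
  have n0 : mass (psi1 (a+b+3)) ≠ 0 := Pool.Agent.H980R3.Slit.psi1_mass_ne _ hL
  have n1 : mass (psi1 a) ≠ 0 := Pool.Agent.H980R3.Slit.psi1_mass_ne a ha
  have n2 : mass (psi1 b) ≠ 0 := Pool.Agent.H980R3.Slit.psi1_mass_ne b hb
  field_simp

end Pool.Agent.Y960.TL
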