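import Pool.Agent.Y996.TL.Stm
import Pool.Agent.H980R3.Slit.C10

/-! Job TL-C910: probability of the window event as a pairing. -/

set_option autoImplicit false

namespace Pool.Agent.Y960.TL

open Pool.Agent.H988R2.Perc
open Pool.Agent.Y996.TL
open Pool.Agent.H980R3.Slit (tR oFutR)
open MeasureTheory Finset

open Classical in
theorem c9 : S_C9 := by
  intro a b α β γ P0 P1 P2 R0 R1 R2
  have key : ∀ f g h : St →₀ ℂ, pair5 a b f g h =
      Finsupp.linearCombination ℂ (fun R => Finsupp.linearCombination ℂ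
        (fun R1 => Finsupp.linearCombination ℂ
          (fun R2 => if connT a b R R1 R2 ∧ ¬ connB a b R R1 R2 then (1:ℂ) else 0) h) g) f := by
    intro f g h
    unfold pair5
    rw [Finsupp.linearCombination_apply]
    apply Finsupp.sum_congr
    intro x _
    rw [Finsupp.linearCombination_apply, Finsupp.sum, Finsupp.sum, Finset.smul_sum]
    apply Finset.sum_congr rfl
    intro y _
    rw [Finsupp.linearCombination_apply, Finsupp.sum, Finsupp.sum, Finset.smul_sum,
      Finset.smul_sum]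
    apply Finset.sum_congr rfl
    intro w _
    simp only [smul_eq_mul]
    ring
  rw [key, map_smul, map_sum]
  simp only [Finsupp.linearCombination_single, map_smul, map_sum, smul_eq_mul]
  simp only [Finset.mul_sum]
  refine Finset.sum_congr rfl fun t0 _ => Finset.sum_congr rfl fun t1 _ =>
    Finset.sum_congr rfl fun t2 _ => ?_
  ring

namespace C10

abbrev Tr := Finset (ℕ × ℕ) × (Finset (ℕ × ℕ) × Finset (ℕ × ℕ))

variable (Q : St → St → St → Prop)

open Classical in
/-- the good cells -/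
noncomputable def goodQ (a b M : ℕ) : Finset Tr :=
  ((T23.SS (a+b+3) M).powerset ×ˢ ((T23.SS a M).powerset ×ˢ (T23.SS b M).powerset)).filter
    (fun p => Q (X (a+b+3) (actBit (T23.bits p.1)) M) (X a (actBit (T23.bits p.2.1)) M)
      (X b (actBit (T23.bits p.2.2)) M))

theorem mem_goodQ {a b M : ℕ} {p : Tr} :
    p ∈ goodQ Q a b M ↔ (p.1 ⊆ T23.SS (a+b+3) M ∧ p.2.1 ⊆ T23.SS a M ∧ p.2.2 ⊆ T23.SS b M) ∧
      Q (X (a+b+3) (actBit (T23.bits p.1)) M) (X a (actBit (T23.bits p.2.1)) M)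
        (X b (actBit (T23.bits p.2.2)) M) := by
  classical
  unfold goodQ
  rw [Finset.mem_filter, Finset.mem_product, Finset.mem_product, Finset.mem_powerset,
    Finset.mem_powerset, Finset.mem_powerset]

/-- the window event given by `Q` -/
def WQ (a b M : ℕ) : Set Conf :=
  {ω | Q (X (a+b+3) (actBit (oPast ω M)) M) (X a (actBit (oFut ω M)) M)
    (X b (actBit (oFutR (a+2) ω M)) M)}

theorem wQ_eq (a b M : ℕ) :
    WQ Q a b M = ⋃ p ∈ goodQ Q a b M, cell5 a b M p.1 p.2.1 p.2.2 := by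
  ext ω
  simp only [WQ, Set.mem_ofPred_eq, Set.mem_iUnion, exists_prop]
  rw [T23.X_past, T23.X_fut, Pool.Agent.H980R3.Slit.C10.X_futR]
  constructor
  · intro h
    refine ⟨(T23.tP (a+b+3) M ω, T23.tF a M ω, tR (a+2) b M ω), ?_, rfl, rfl, rfl⟩
    rw [mem_goodQ]
    exact ⟨⟨filter_subset _ _, filter_subset _ _, filter_subset _ _⟩, h⟩
  · rintro ⟨⟨p1, p2, p3⟩, hp, h1, h2, h3⟩
    simp only at h1 h2 h3
    subst h1 h2 h3
    rw [mem_goodQ] at hp
    exact hp.2

open Classical in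
theorem sum_goodQ (a b M : ℕ) :
    (∑ t0 ∈ (T23.SS (a+b+3) M).powerset, ∑ t1 ∈ (T23.SS a M).powerset,
        ∑ t2 ∈ (T23.SS b M).powerset,
        (if Q (X (a+b+3) (actBit (T23.bits t0)) M) (X a (actBit (T23.bits t1)) M)
          (X b (actBit (T23.bits t2)) M) then (1 : ℂ) else 0)) = ((goodQ Q a b M).card : ℂ) := by
  unfold goodQ
  rw [Finset.natCast_card_filter, Finset.sum_product]
  refine Finset.sum_congr rfl fun t0 _ => ?_
  rw [Finset.sum_product]

theorem cells (h8 : S_C8) (a b M : ℕ) : ∀ p ∈ goodQ Q a b M,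
    MeasurableSet (cell5 a b M p.1 p.2.1 p.2.2) ∧
      perc (cell5 a b M p.1 p.2.1 p.2.2) = (1/2) ^ (2*M*(a+b+3) + 2*M*a + 2*M*b) := by
  intro p hp
  obtain ⟨⟨h1, h2, h3⟩, _⟩ := (mem_goodQ Q).1 hp
  exact h8 a b M p.1 p.2.1 p.2.2 h1 h2 h3

theorem meas (h8 : S_C8) (a b M : ℕ) : MeasurableSet (WQ Q a b M) := by
  rw [wQ_eq]
  exact Finset.measurableSet_biUnion _ fun p hp => (cells Q h8 a b M p hp).1

end C10

open C10 in
theorem c10 (h8 : S_C8) (h9 : S_C9) : S_C10 := by
  intro a b M _ _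
  refine ⟨meas (connT a b) h8 a b M, meas (connB a b) h8 a b M, ?_⟩
  set Q : St → St → St → Prop := fun R R1 R2 => connT a b R R1 R2 ∧ ¬ connB a b R R1 R2 with hQ
  have hdiff : WT a b M \ WB a b M = WQ Q a b M := rfl
  have hc := cells Q h8 a b M
  rw [hdiff, T23.law_eq, T23.law_eq, T23.law_eq, h9, wQ_eq, measureReal_biUnion_finset]
  · have h1 : ∀ p ∈ goodQ Q a b M, perc.real (cell5 a b M p.1 p.2.1 p.2.2) =
        (1/2 : ℝ)^(2*M*(a+b+3) + 2*M*a + 2*M*b) := by
      intro p hp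
      rw [measureReal_def, (hc p hp).2]
      simp
    rw [Finset.sum_congr rfl h1, Finset.sum_const, nsmul_eq_mul]
    have h2 := sum_goodQ Q a b M
    have h3 : ∀ S : ℂ, S = ((goodQ Q a b M).card : ℂ) →
        (((goodQ Q a b M).card * (1/2 : ℝ)^(2*M*(a+b+3) + 2*M*a + 2*M*b) : ℝ) : ℂ) =
          (1/2)^(2*M*(a+b+3)) * (1/2)^(2*M*a) * (1/2)^(2*M*b) * S := by
      intro S hS
      rw [hS]
      push_cast
      rw [← pow_add, ← pow_add, mul_comm]
    refine h3 _ (Eq.trans ?_ h2)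
    refine Finset.sum_congr rfl fun t0 _ => Finset.sum_congr rfl fun t1 _ =>
      Finset.sum_congr rfl fun t2 _ => ?_
    congr!
  · intro p _ p' _ hne
    rw [Function.onFun, Set.disjoint_left]
    rintro ω ⟨h1, h2, h3⟩ ⟨h4, h5, h6⟩
    exact hne (Prod.ext (h1.symm.trans h4) (Prod.ext (h2.symm.trans h5) (h3.symm.trans h6)))
  · intro p hp
    exact (hc p hp).1

end Pool.Agent.Y960.TL
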